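import Pool.Agent.Helper85.GG.CASEU

/-! # Module CASEB (helper85) -/

set_option autoImplicit false
set_option linter.unusedSectionVars false

namespace Pool.Agent.Helper92.GG

open MvPolynomial
open Pool.Agent.Helper49.Girth (cl mem_cl mem_cl' coe_cl subset_cl mem_cl_of_mem cl_le_cl cl_mono
  root_mem_cl aeval_mem ty ty_add ty_succ ty_add_two ty_zero)

universe u

section cons

variable {K : Type u} [Field K] {n : ℕ} {P : Ideal (MvPolynomial (Fin n ⊕ Fin n) K)}
  {L : Type u} [Field L] [Algebra K L]

/-- add a first vertex -/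
def F85_cons (u : Fin n → L) (a : ℕ → Fin n → L) : ℕ → Fin n → L :=
  fun i => if i = 0 then u else a (i - 1)

theorem F85_cons_zero (u : Fin n → L) (a : ℕ → Fin n → L) : F85_cons u a 0 = u := rfl

theorem F85_cons_succ (u : Fin n → L) (a : ℕ → Fin n → L) (i : ℕ) :
    F85_cons u a (i + 1) = a i := rfl

theorem F85_cons_walk {σ : Bool} {r : ℕ} {a : ℕ → Fin n → L} {u : Fin n → L}
    (ha : IsWalk P (!σ) r a) (he : Edge P σ u (a 0)) : IsWalk P σ (r + 1) (F85_cons u a) := by
  intro i hi
  cases i with
  | zero => exact he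
  | succ i =>
    rw [F85_cons_succ, F85_cons_succ]
    have := ha i (by omega)
    have e : ty (!σ) i = ty σ (i + 1) := by
      rw [Pool.Agent.Helper49.Girth.ty_not, ty_succ]
    rw [e] at this
    exact this

end cons

/-- specialization of pairs, from `Good` -/
theorem F85_good_spec {K : Type u} [Field K] {n : ℕ} {L : Type u} [Field L] [Algebra K L]
    {s : Set L} {x v q : Fin n → L} {w : KVal K L} (hs : w.Triv (cl K s))
    (hv : ∀ c, v c ∈ w.V)
    (hspec : ∀ f : MvPolynomial (Fin n) (cl K s), w.red (aeval v f) = 0 → aeval x f = 0)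
    (hq : ∀ c, q c ∈ cl K s) :
    Spec K (Sum.elim (w.redv v) (w.redv q)) (Sum.elim x q) := by
  intro f hf
  set f' : MvPolynomial (Fin n) (cl K s) :=
    aeval (Sum.elim (fun i => X i) (fun i => C (⟨q i, hq i⟩ : cl K s))) f with hf'
  have key : ∀ y : Fin n → L, aeval y f' = aeval (Sum.elim y q) f := by
    intro y
    have h1 : ((aeval y : MvPolynomial (Fin n) (cl K s) →ₐ[cl K s] L).restrictScalars K).comp
        (aeval (Sum.elim (fun i => X i) (fun i => C (⟨q i, hq i⟩ : cl K s))) :
          MvPolynomial (Fin n ⊕ Fin n) K →ₐ[K] MvPolynomial (Fin n) (cl K s)) =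
        aeval (Sum.elim y q) := by
      apply MvPolynomial.algHom_ext
      rintro (i | i)
      · simp
      · simp only [AlgHom.comp_apply, aeval_X, Sum.elim_inr, AlgHom.coe_restrictScalars', aeval_C]
        rfl
    exact congrArg (fun φ : MvPolynomial (Fin n ⊕ Fin n) K →ₐ[K] L => φ f) h1
  rw [← key x]
  apply hspec
  rw [key v]
  have hz : ∀ i, (Sum.elim v q i : L) ∈ w.V := by
    rintro (i | i)
    · exact hv i
    · exact (hs _ (hq i)).1
  rw [(F85_aeval_red w hz f).2]
  have e : (fun i => w.red (Sum.elim v q i)) = Sum.elim (w.redv v) (w.redv q) := by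
    funext i
    rcases i with i | i <;> rfl
  rw [e]
  exact hf

theorem st_CASEB (h1 : ST_PL1.{u}) (h2 : ST_PL2.{u}) (hE : ST_ENDS.{u}) (hG : ST_GNB.{u})
    (hF : ST_FR0.{u}) (hZ : ST_ZERO.{u}) : ST_CASEB.{u} := by
  intro K _ _ n m S D O L _ _ _ ρ s x u v c a w hM hT hGd hrk
  have hm := S.two_le
  have hsT : w.Triv (cl K s) := hGd.triv
  have hcs : ∀ i ≤ 2 * m - 1, ∀ d, c i d ∈ cl K s := fun i hi d => F85_tail_mem hT hi d
  have hcV : ∀ i ≤ 2 * m - 1, ∀ d, c i d ∈ w.V := fun i hi d => (hsT _ (hcs i hi d)).1
  have hxs := hM.xs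
  have hne : v ≠ x := fun h => hGd.ne (by rw [h])
  -- triviality on `cl (x ∪ v)`
  set T : Set L := Set.range x ∪ Set.range v with hTdef
  have hTf : T.Finite := (Set.finite_range _).union (Set.finite_range _)
  have hxv : w.Triv (cl K T) := by
    apply h1 K L w T hTf
    · rintro b (⟨d, rfl⟩ | ⟨d, rfl⟩)
      · exact (hsT _ (hxs d)).1
      · exact hGd.mem d
    · have e1 : rk K T ≤ m + 2 := by
        have r1 := S.rkE L _ x u hM.xu
        have r2 := F85_step_le S.toSys hM.uv ((Set.finite_range x).union (Set.finite_range u))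
          Set.subset_union_right
        have r3 : T ⊆ Set.range x ∪ Set.range u ∪ Set.range v := by
          rintro b (hb | hb)
          · exact Or.inl (Or.inl hb)
          · exact Or.inr hb
        have r4 := rk_mono (K := K) (((Set.finite_range x).union (Set.finite_range u)).union
          (Set.finite_range v)) r3
        omega
      have e2 : w.red '' T = Set.range (w.redv x) ∪ Set.range (w.redv v) := by
        rw [hTdef, Set.image_union, ← Set.range_comp, ← Set.range_comp]
        rfl
      rw [e2]
      omega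
  have huT : ∀ d, u d ∈ cl K T := by
    intro d
    have hw2 : IsWalk S.P (ty ρ (m - 1)) 2 (F85_cons x (F85_cons u (fun _ => v))) := by
      apply F85_cons_walk
      · apply F85_cons_walk (r := 0)
        · intro i hi; omega
        · exact hM.uv
      · exact hM.xu
    have hn2 : NB 2 (F85_cons x (F85_cons u (fun _ => v))) := by
      intro i hi
      have : i = 0 := by omega
      subst this
      exact hne.symm
    exact hE K n m 1 S.toSys L _ 2 _ hm hw2 hn2 1 (by omega) d
  have hxT : ∀ d, x d ∈ cl K T := fun d => mem_cl_of_mem (Or.inl ⟨d, rfl⟩)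
  have hvT : ∀ d, v d ∈ cl K T := fun d => mem_cl_of_mem (Or.inr ⟨d, rfl⟩)
  have huV : ∀ d, u d ∈ w.V := fun d => (hxv _ (huT d)).1
  have hxu' : Edge S.P (ty ρ (m - 1)) (w.redv x) (w.redv u) :=
    F85_edge_red w h2 hxv hxT huT hM.xu
  have huv' : Edge S.P (!(ty ρ (m - 1))) (w.redv u) (w.redv v) :=
    F85_edge_red w h2 hxv huT hvT hM.uv
  -- FR0
  obtain ⟨f1, f2, f3, f4, f5⟩ := hF K n m S L ρ s x u v c a w hM hT hGd
  have hcen := hT.cen
  have hrc : IsWalk S.P ρ (2 * m - 1) (fun i => w.redv (c i)) :=
    F85_walk_red w h2 hsT hcs hT.walk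
  have hrnc : NB (2 * m - 1) (fun i => w.redv (c i)) :=
    F85_nb_red w h2 hsT hcs (F85_tail_nb hG hT)
  have hrc2 : IsWalk S.P (ty ρ (m - 1)) m (fun i => w.redv (c (m - 1 + i))) := by
    intro i hi
    have := hrc (m - 1 + i) (by omega)
    rw [ty_add] at this
    exact this
  have hrnc2 : NB m (fun i => w.redv (c (m - 1 + i))) := fun i hi => hrnc (m - 1 + i) (by omega)
  have eqm : m - 1 + m = 2 * m - 1 := by omega
  have eq1 : m - 1 + 1 = m := by omega
  have hra0 : w.redv (a 0) = w.redv v := by rw [hT.a0]
  have hram : w.redv (a m) = w.redv (c (m - 1 + m)) := by rw [hT.am, eqm]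
  have hrx : w.redv (c (m - 1 + 0)) = w.redv x := by rw [Nat.add_zero, hcen]
  -- keyA
  have keyA : w.redv u = w.redv (a 1) → w.redv u = w.redv (c m) := by
    intro h
    have he : Edge S.P (ty ρ (m - 1)) (w.redv (c (m - 1 + 0))) (w.redv (a 1)) := by
      rw [hrx, ← h]; exact hxu'
    have := F85_key S.uniq hm f3 f4 hrc2 hrnc2 he hram
    rw [h]
    simp only [eq1] at this
    exact this
  have keyB : w.redv u = w.redv (c m) → w.redv (a 1) = w.redv u := by
    intro h
    have he : Edge S.P (ty ρ (m - 1)) (w.redv (a 0)) (w.redv (c (m - 1 + 1))) := by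
      rw [hra0, eq1, ← h]
      have := F85_edge_symm huv'
      rw [Bool.not_not] at this
      exact this
    have := F85_key S.uniq hm hrc2 hrnc2 f3 f4 he hram.symm
    simp only [eq1] at this
    rw [h, this]
  have hune : ∀ i ≤ 2 * m - 1, u ≠ c i := by
    intro i hi h
    apply hM.ut
    rw [h]
    exact hcs i hi _
  have keyC : a 1 ≠ u := by
    intro h
    have he : Edge S.P (ty ρ (m - 1)) (c (m - 1 + 0)) (a 1) := by
      rw [Nat.add_zero, hcen, h]; exact hM.xu
    have hq : a m = c (m - 1 + m) := by rw [hT.am, eqm]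
    have := F85_key S.uniq hm hT.awalk hT.anb (F85_tail_walk2 hT) (F85_tail_nb2 hG hT) he hq
    simp only [eq1] at this
    exact hune m (by omega) (by rw [← h, this])
  -- the walk `V`
  have hwalkV : ∀ j, 1 ≤ j → j ≤ m → IsWalk S.P (ty ρ (m - j)) (m + 1) (F85_V c a u m j) := by
    intro j hj hjm
    have g1 : IsWalk S.P ρ (m - 1) c := fun i hi => hT.walk i (by omega)
    have g2 : Edge S.P (ty ρ (m - 1)) (c (m - 1)) u := by rw [hcen]; exact hM.xu
    have g3 : Edge S.P (!(ty ρ (m - 1))) u (a 0) := by rw [hT.a0]; exact hM.uv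
    have g4 : IsWalk S.P (ty ρ (m - 1)) (m - j) a := fun i hi => hT.awalk i (by omega)
    exact F85_V_walk hj hjm g1 g2 g3 g4
  have hrwalkV' : ∀ j, 1 ≤ j → j ≤ m → IsWalk S.P (ty ρ (m - j)) (m + 1)
      (F85_V (fun i => w.redv (c i)) (fun i => w.redv (a i)) (w.redv u) m j) := by
    intro j hj hjm
    have g1 : IsWalk S.P ρ (m - 1) (fun i => w.redv (c i)) := fun i hi => hrc i (by omega)
    have g2 : Edge S.P (ty ρ (m - 1)) (w.redv (c (m - 1))) (w.redv u) := by
      rw [hcen]; exact hxu'
    have g3 : Edge S.P (!(ty ρ (m - 1))) (w.redv u) (w.redv (a 0)) := by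
      rw [hra0]; exact huv'
    have g4 : IsWalk S.P (ty ρ (m - 1)) (m - j) (fun i => w.redv (a i)) :=
      fun i hi => f3 i (by omega)
    exact F85_V_walk (c := fun i => w.redv (c i)) (a := fun i => w.redv (a i)) hj hjm g1 g2 g3 g4
  have hrwalkV : ∀ j, 1 ≤ j → j ≤ m →
      IsWalk S.P (ty ρ (m - j)) (m + 1) (fun i => w.redv (F85_V c a u m j i)) := by
    intro j hj hjm
    have e : (fun i => w.redv (F85_V c a u m j i)) =
        F85_V (fun i => w.redv (c i)) (fun i => w.redv (a i)) (w.redv u) m j := by
      funext i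
      exact F85_redv_V w c a u m j i
    rw [e]
    exact hrwalkV' j hj hjm
  -- (i)
  have hzero : ∀ j, 1 ≤ j → j ≤ m → w.red (gfun D ρ c a j) = 0 →
      (2 ≤ j ∧ w.redv u = w.redv (c (m - 2))) ∨ (j + 1 ≤ m ∧ w.redv u = w.redv (c m)) := by
    intro j hj hjm hg0
    by_contra hcon
    rw [not_or] at hcon
    obtain ⟨b, hb1, hb2, hb3, hb4⟩ := hZ K n m S D L ρ s x u v c a w hM hT hGd j hj hjm hg0
    have hnbV : NB (m + 1)
        (F85_V (fun i => w.redv (c i)) (fun i => w.redv (a i)) (w.redv u) m j) := by
      have g1 : NB (m - 1) (fun i => w.redv (c i)) := fun i hi => hrnc i (by omega)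
      have g2 : 2 ≤ j → w.redv (c (m - 2)) ≠ w.redv u := fun hj2 he => hcon.1 ⟨hj2, he.symm⟩
      have g3 : w.redv (c (m - 1)) ≠ w.redv (a 0) := by
        rw [hcen, hra0]; exact hGd.ne.symm
      have g4 : j + 1 ≤ m → w.redv u ≠ w.redv (a 1) := fun hj2 he => hcon.2 ⟨hj2, keyA he⟩
      have g5 : NB (m - j) (fun i => w.redv (a i)) := fun i hi => f4 i (by omega)
      exact F85_V_nb (c := fun i => w.redv (c i)) (a := fun i => w.redv (a i)) hj hjm g1 g2 g3
        g4 g5
    have s1 : b 0 =
        F85_V (fun i => w.redv (c i)) (fun i => w.redv (a i)) (w.redv u) m j 0 := by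
      rw [F85_V_lt (by omega), hb3]
      rfl
    have s2 : b (m - 1) =
        F85_V (fun i => w.redv (c i)) (fun i => w.redv (a i)) (w.redv u) m j (m + 1) := by
      rw [F85_V_gt (by omega), hb4]
      have : m + 1 - (j + 1) = m - j := by omega
      rw [this]
    have := (S.uniq w.κ (ty ρ (m - j)) (m - 1) (m + 1) b _ (by omega) hb1 (hrwalkV' j hj hjm)
      hb2 hnbV s1 (F85_ty_congr _ (by omega)) s2).1
    omega
  have hgV : ∀ j, 1 ≤ j → j ≤ m → gfun D ρ c a j ∈ w.V := by
    intro j hj hjm
    refine (F85_aeval_red w ?_ _).1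
    rintro (i | i)
    · exact hcV _ (by omega) i
    · exact f2 _ (by omega) i
  have hunit : ∀ j, 1 ≤ j → j ≤ m → w.red (gfun D ρ c a j) ≠ 0 →
      w.V.valuation (gfun D ρ c a j) = 1 :=
    fun j hj hjm h => F85_val_eq_one w (hgV j hj hjm) h
  -- configurations
  have hconf : ∀ j, 1 ≤ j → j ≤ m → ∀ i, 1 ≤ i → i ≤ m →
      w.redv (F85_V c a u m j (i + 1)) = w.redv (F85_V c a u m j (i - 1)) →
      F85_V c a u m j (i + 1) ≠ F85_V c a u m j (i - 1) →
      Config S w (ty ρ (m - j)) i (F85_V c a u m j) := by
    intro j hj hjm i hi him hback hne'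
    refine ⟨hi, him, hwalkV j hj hjm, ?_, hrwalkV j hj hjm, hback, hne', ?_⟩
    · intro l hl d
      unfold F85_V
      split_ifs with h h'
      · exact hcV _ (by omega) d
      · exact huV d
      · exact f2 _ (by omega) d
    · refine (f5 j hj hjm).trans (rk_mono ((F85_pts_finite (F85_V c a u m j)
        (Set.finite_Iic (m + 1))).image w.red) (Set.image_mono ?_))
      apply Set.union_subset
      · apply F85_pts_subset
        intro l hl d
        have hl' := Set.mem_Icc.mp hl
        have : F85_V c a u m j (l - (m - j)) = c l := by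
          rw [F85_V_lt (by omega)]
          congr 1
          omega
        rw [← this]
        exact F85_mem_pts (Set.mem_Iic.mpr (by omega)) d
      · apply F85_pts_subset
        intro l hl d
        have hl' := Set.mem_Iic.mp hl
        have : F85_V c a u m j (j + 1 + l) = a l := by
          rw [F85_V_gt (by omega)]
          congr 1
          omega
        rw [← this]
        exact F85_mem_pts (Set.mem_Iic.mpr (by omega)) d
  have hord : ∀ j, 1 ≤ j → j ≤ m → ∀ i, Config S w (ty ρ (m - j)) i (F85_V c a u m j) →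
      w.V.valuation (gfun D ρ c a j) ^ O.A =
        w.V.valuation (F85_V c a u m j (i + 1) (S.t (ty ρ (m - j + (i + 1)))) -
          F85_V c a u m j (i - 1) (S.t (ty ρ (m - j + (i + 1))))) ^ O.B (ty ρ (m - j)) i := by
    intro j hj hjm i hc
    have key := O.ord L w (ty ρ (m - j)) i (F85_V c a u m j) hc
    rw [F85_V_lt (by omega : 0 < j), F85_V_gt (by omega : j < m + 1), ← ty_add] at key
    have e1 : m - j + 0 = m - j := by omega
    have e2 : m + 1 - (j + 1) = m - j := by omega
    rw [e1, e2] at key
    exact key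
  refine ⟨huV, hxu', fun j hj hjm => ⟨fun hu => ?_, fun hu => ?_, fun hu1 hu2 => ?_⟩⟩
  · -- `ū = c̄ (m-2)`
    rcases Nat.lt_or_ge 1 j with hj2 | hj2
    · have e1 : F85_V c a u m j (j - 1 + 1) = u := F85_V_eq (by omega)
      have e2 : F85_V c a u m j (j - 1 - 1) = c (m - 2) := by
        rw [F85_V_lt (by omega)]
        congr 1
        omega
      have hc := hconf j hj hjm (j - 1) (by omega) (by omega) (by rw [e1, e2, hu])
        (by rw [e1, e2]; exact hune _ (by omega))
      have := hord j hj hjm (j - 1) hc
      rw [e1, e2] at this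
      have e3 : ty ρ (m - j + (j - 1 + 1)) = ty ρ m := F85_ty_congr ρ (by omega)
      rw [e3] at this
      exact this
    · have e0 : j = 1 := by omega
      subst e0
      have e1 : O.B (ty ρ (m - 1)) (1 - 1) = 0 := O.B_zero _
      rw [e1, pow_zero, hunit 1 hj hjm, one_pow]
      intro hg0
      rcases hzero 1 hj hjm hg0 with h | h
      · omega
      · have h3 := hrnc (m - 2) (by omega)
        apply h3
        have e4 : m - 2 + 2 = m := by omega
        simp only [e4]
        rw [← hu, h.2]
  · -- `ū = c̄ m`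
    rcases Nat.lt_or_ge j m with hj2 | hj2
    · have e1 : F85_V c a u m j (j + 1 + 1) = a 1 := by
        rw [F85_V_gt (by omega)]
        congr 1
        omega
      have e2 : F85_V c a u m j (j + 1 - 1) = u := F85_V_eq (by omega)
      have hc := hconf j hj hjm (j + 1) (by omega) (by omega) (by rw [e1, e2]; exact keyB hu)
        (by rw [e1, e2]; exact keyC)
      have k1 := hord j hj hjm (j + 1) hc
      rw [e1, e2] at k1
      have e3 : ty ρ (m - j + (j + 1 + 1)) = ty ρ m := F85_ty_congr ρ (by omega)
      rw [e3] at k1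
      rw [k1]
      -- compare with `c m`
      have hty : (!(ty ρ (m - 1))) = ty ρ m := by
        rw [← ty_succ, eq1]
      have hty' : (!(ty ρ m)) = ty ρ (m - 1) := by rw [← hty, Bool.not_not]
      set W1 : ℕ → Fin n → L := F85_cons u a with hW1
      set W2 : ℕ → Fin n → L := F85_cons u (fun i => c (m - 1 + i)) with hW2
      have q1 : IsWalk S.P (ty ρ m) (m + 1) W1 := by
        apply F85_cons_walk
        · rw [hty']; exact hT.awalk
        · rw [hT.a0, ← hty]; exact hM.uv
      have q2 : IsWalk S.P (ty ρ m) (m + 1) W2 := by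
        apply F85_cons_walk
        · rw [hty']; exact F85_tail_walk2 hT
        · simp only [Nat.add_zero]
          rw [hcen, ← hty]; exact F85_edge_symm hM.xu
      have q3 : IsWalk S.P (ty ρ m) (m + 1) (fun i => w.redv (W1 i)) := by
        have e : (fun i => w.redv (W1 i)) = F85_cons (w.redv u) (fun i => w.redv (a i)) := by
          funext i
          cases i <;> rfl
        rw [e]
        apply F85_cons_walk
        · rw [hty']; exact f3
        · rw [hra0, ← hty]; exact huv'
      have q4 : IsWalk S.P (ty ρ m) (m + 1) (fun i => w.redv (W2 i)) := by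
        have e : (fun i => w.redv (W2 i)) =
            F85_cons (w.redv u) (fun i => w.redv (c (m - 1 + i))) := by
          funext i
          cases i <;> rfl
        rw [e]
        apply F85_cons_walk
        · rw [hty']; exact hrc2
        · rw [hrx, ← hty]; exact F85_edge_symm hxu'
      have hqs : ∀ d, c (2 * m - 1) d ∈ cl K s := hcs _ (le_refl _)
      have r1 := F85_tail_rk hE hG hT
      have c1 : Config S w (ty ρ m) 1 W1 := by
        refine ⟨le_refl _, by omega, q1, ?_, q3, keyB hu, keyC, ?_⟩
        · intro l hl d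
          cases l with
          | zero => exact huV d
          | succ l => exact f2 l (by omega) d
        · have r2 := (F85_good_spec hGd.triv hGd.mem hGd.spec hqs).rk_le
          rw [Set.Sum.elim_range, Set.Sum.elim_range] at r2
          refine (r1.trans r2).trans (rk_mono ((F85_pts_finite W1
            (Set.finite_Iic (m + 1))).image w.red) ?_)
          apply Set.union_subset
          · rintro _ ⟨d, rfl⟩
            refine ⟨W1 (0 + 1) d, F85_mem_pts (Set.mem_Iic.mpr (by omega)) d, ?_⟩
            rw [hW1, F85_cons_succ, hT.a0]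
            rfl
          · rintro _ ⟨d, rfl⟩
            refine ⟨W1 (m + 1) d, F85_mem_pts (Set.mem_Iic.mpr (by omega)) d, ?_⟩
            rw [hW1, F85_cons_succ, hT.am]
            rfl
      have c2 : Config S w (ty ρ m) 1 W2 := by
        refine ⟨le_refl _, by omega, q2, ?_, q4, ?_, ?_, ?_⟩
        · intro l hl d
          cases l with
          | zero => exact huV d
          | succ l => exact hcV (m - 1 + l) (by omega) d
        · have : W2 (1 + 1) = c m := by
            rw [hW2, F85_cons_succ, eq1]
          rw [this]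
          exact hu.symm
        · have : W2 (1 + 1) = c m := by
            rw [hW2, F85_cons_succ, eq1]
          rw [this]
          exact (hune m (by omega)).symm
        · have r2 := (h2 K L w s hsT).2.1 (Set.range x ∪ Set.range (c (2 * m - 1)))
            ((Set.finite_range _).union (Set.finite_range _)) (by
              rintro b (⟨d, rfl⟩ | ⟨d, rfl⟩)
              · exact hxs d
              · exact hqs d)
          rw [← r2] at r1
          refine r1.trans (rk_mono ((F85_pts_finite W2
            (Set.finite_Iic (m + 1))).image w.red) (Set.image_mono ?_))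
          apply Set.union_subset
          · rintro _ ⟨d, rfl⟩
            have : W2 (0 + 1) d = x d := by
              rw [hW2, F85_cons_succ, Nat.add_zero, hcen]
            rw [← this]
            exact F85_mem_pts (Set.mem_Iic.mpr (by omega)) d
          · rintro _ ⟨d, rfl⟩
            have : W2 (m + 1) d = c (2 * m - 1) d := by
              rw [hW2, F85_cons_succ, eqm]
            rw [← this]
            exact F85_mem_pts (Set.mem_Iic.mpr (by omega)) d
      have o1 := O.ord L w (ty ρ m) 1 W1 c1
      have o2 := O.ord L w (ty ρ m) 1 W2 c2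
      have w10 : W1 0 = u := rfl
      have w11 : W1 (m + 1) = c (2 * m - 1) := by rw [hW1, F85_cons_succ, hT.am]
      have w12 : W1 (1 + 1) = a 1 := rfl
      have w20 : W2 0 = u := rfl
      have w21 : W2 (m + 1) = c (2 * m - 1) := by rw [hW2, F85_cons_succ, eqm]
      have w22 : W2 (1 + 1) = c m := by rw [hW2, F85_cons_succ, eq1]
      have e5 : ty (ty ρ m) (1 + 1) = ty ρ m := ty_add_two _ 0
      rw [w10, w11, w12, e5] at o1
      rw [w20, w21, w22, e5] at o2
      have o3 := o1.symm.trans o2
      have hB : O.B (ty ρ m) 1 ≠ 0 := by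
        have := O.B_pos (ty ρ m) 1 (le_refl _) (by omega)
        omega
      have o4 : w.V.valuation (a 1 (S.t (ty ρ m)) - u (S.t (ty ρ m))) =
          w.V.valuation (c m (S.t (ty ρ m)) - u (S.t (ty ρ m))) :=
        (pow_left_inj₀ zero_le zero_le hB).mp o3
      rw [o4, Valuation.map_sub_swap]
    · have e0 : j = m := by omega
      subst e0
      rw [O.B_end, pow_zero, hunit j hj hjm, one_pow]
      intro hg0
      rcases hzero j hj hjm hg0 with h | h
      · have h3 := hrnc (j - 2) (by omega)
        apply h3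
        have e4 : j - 2 + 2 = j := by omega
        simp only [e4]
        rw [← hu, h.2]
      · omega
  · -- otherwise
    apply hunit j hj hjm
    intro hg0
    rcases hzero j hj hjm hg0 with h | h
    · exact hu1 h.2
    · exact hu2 h.2

end Pool.Agent.Helper92.GG
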