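import Pool.Agent.Helper85.GG.Frame

/-! # Module CASEU (helper85) -/

set_option autoImplicit false
set_option linter.unusedSectionVars false

namespace Pool.Agent.Helper92.GG

open MvPolynomial
open Pool.Agent.Helper49.Girth (cl mem_cl mem_cl' coe_cl subset_cl mem_cl_of_mem cl_le_cl cl_mono
  root_mem_cl aeval_mem ty ty_add ty_succ ty_add_two ty_zero)

universe u

section tail

variable {K : Type u} [Field K] [IsAlgClosed K] {n m : ℕ} {S : SysT K n m}
  {L : Type u} [Field L] [Algebra K L] {ρ : Bool} {s : Set L} {x v : Fin n → L}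
  {c a : ℕ → Fin n → L}

theorem F85_tail_mem (T : Tail S ρ s x v c a) {i : ℕ} (hi : i ≤ 2 * m - 1) (d : Fin n) :
    c i d ∈ cl K s :=
  T.sub (F85_mem_pts (Set.mem_Iic.mpr hi) d)

theorem F85_tail_nb (hG : ST_GNB.{u}) (T : Tail S ρ s x v c a) : NB (2 * m - 1) c := by
  apply hG K n m 1 S.toSys L ρ (2 * m - 1) c T.walk
  have := T.gen
  have := S.two_le
  omega

theorem F85_tail_walk2 (T : Tail S ρ s x v c a) :
    IsWalk S.P (ty ρ (m - 1)) m (fun i => c (m - 1 + i)) := by
  have := S.two_le
  exact F85_shift_walk (m - 1) m T.walk (by omega)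

theorem F85_tail_nb2 (hG : ST_GNB.{u}) (T : Tail S ρ s x v c a) :
    NB m (fun i => c (m - 1 + i)) := by
  have := S.two_le
  exact F85_shift_nb (m - 1) m (F85_tail_nb hG T) (by omega)

theorem F85_tail_rk (hE : ST_ENDS.{u}) (hG : ST_GNB.{u}) (T : Tail S ρ s x v c a) :
    2 * m ≤ rk K (Set.range x ∪ Set.range (c (2 * m - 1))) := by
  have h2 := S.two_le
  have h1 := F85_sub_rk S.toSys T.walk (m - 1) (2 * m - 1) (by omega) (le_refl _)
  have h3 := T.gen
  have h4 : rk K (pts c (Set.Icc (m - 1) (2 * m - 1))) ≤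
      rk K (Set.range x ∪ Set.range (c (2 * m - 1))) := by
    apply rk_le_of_subset_cl ((Set.finite_range _).union (Set.finite_range _))
    apply F85_pts_subset
    intro i hi d
    have hi' := Set.mem_Icc.mp hi
    have h5 := hE K n m 1 S.toSys L (ty ρ (m - 1)) m (fun i => c (m - 1 + i)) (le_refl _)
      (F85_tail_walk2 T) (F85_tail_nb2 hG T) (i - (m - 1)) (by omega) d
    have e1 : m - 1 + (i - (m - 1)) = i := by omega
    have e2 : m - 1 + 0 = m - 1 := by omega
    have e3 : m - 1 + m = 2 * m - 1 := by omega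
    simp only [e1, e2, e3, T.cen] at h5
    exact h5
  omega

end tail

theorem st_CASEU (h1 : ST_PL1.{u}) (h2 : ST_PL2.{u}) (hE : ST_ENDS.{u}) (hG : ST_GNB.{u}) :
    ST_CASEU.{u} := by
  intro K _ _ n m S D O L _ _ _ ρ s x u v c a w hM hT hw hv hvx j hj hjm
  have hm := S.two_le
  have hsT : w.Triv (cl K s) := fun b hb => hw b (cl_mono Set.subset_union_left hb)
  have hcs : ∀ i ≤ 2 * m - 1, ∀ d, c i d ∈ cl K s := fun i hi d => F85_tail_mem hT hi d
  have hcV : ∀ i ≤ 2 * m - 1, ∀ d, c i d ∈ w.V := fun i hi d => (hsT _ (hcs i hi d)).1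
  have hxs := hM.xs
  set q : Fin n → L := c (2 * m - 1) with hq
  have hqs : ∀ d, q d ∈ cl K s := hcs _ (le_refl _)
  set T : Set L := Set.range v ∪ Set.range q with hTdef
  have hTf : T.Finite := (Set.finite_range _).union (Set.finite_range _)
  have hvq : w.Triv (cl K T) := by
    apply h1 K L w T hTf
    · rintro b (⟨d, rfl⟩ | ⟨d, rfl⟩)
      · exact hv d
      · exact (hsT _ (hqs d)).1
    · have e1 : rk K T ≤ 2 * m := by
        have r1 := rk_union_le (K := K) (Set.finite_range v) (Set.finite_range q)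
        have r2 := S.rkV L _ v u (F85_edge_symm hM.uv)
        have r3 : rk K (Set.range q) = m * 1 := by
          have e0 : 2 * m - 2 + 1 = 2 * m - 1 := by omega
          have := hT.walk (2 * m - 2) (by omega)
          rw [e0] at this
          exact S.rkV L _ q _ (F85_edge_symm this)
        rw [hTdef]
        omega
      have e2 : w.red '' (Set.range x ∪ Set.range q) ⊆ w.red '' T := by
        rintro _ ⟨b, (⟨d, rfl⟩ | ⟨d, rfl⟩), rfl⟩
        · exact ⟨v d, Or.inl ⟨d, rfl⟩, congrFun hvx d⟩
        · exact ⟨q d, Or.inr ⟨d, rfl⟩, rfl⟩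
      have e3 := rk_mono (K := K) (hTf.image w.red) e2
      have e4 := (h2 K L w s hsT).2.1 (Set.range x ∪ Set.range q)
        ((Set.finite_range _).union (Set.finite_range _)) (by
          rintro b (⟨d, rfl⟩ | ⟨d, rfl⟩)
          · exact hxs d
          · exact hqs d)
      have e5 := F85_tail_rk hE hG hT
      rw [← hq] at e5
      omega
  have haT : ∀ i ≤ m, ∀ d, a i d ∈ cl K T := by
    intro i hi d
    have := hE K n m 1 S.toSys L _ m a (le_refl _) hT.awalk hT.anb i hi d
    rw [hT.a0, hT.am] at this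
    exact this
  have hra := F85_walk_red w h2 hvq haT hT.awalk
  have hrna := F85_nb_red w h2 hvq haT hT.anb
  have hrc : IsWalk S.P ρ (2 * m - 1) (fun i => w.redv (c i)) :=
    F85_walk_red w h2 hsT hcs hT.walk
  have hrnc : NB (2 * m - 1) (fun i => w.redv (c i)) :=
    F85_nb_red w h2 hsT hcs (F85_tail_nb hG hT)
  have hrc2 : IsWalk S.P (ty ρ (m - 1)) m (fun i => w.redv (c (m - 1 + i))) := by
    intro i hi
    have := hrc (m - 1 + i) (by omega)
    rw [ty_add] at this
    exact this
  have hrnc2 : NB m (fun i => w.redv (c (m - 1 + i))) := fun i hi => hrnc (m - 1 + i) (by omega)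
  have hac : ∀ i ≤ m, w.redv (a i) = w.redv (c (m - 1 + i)) := by
    have e1 : m - 1 + m = 2 * m - 1 := by omega
    have s1 : w.redv (a 0) = w.redv (c (m - 1 + 0)) := by
      rw [hT.a0, Nat.add_zero, hT.cen]; exact hvx
    have s2 : w.redv (a m) = w.redv (c (m - 1 + m)) := by
      rw [hT.am, e1]
    exact (S.uniq w.κ (ty ρ (m - 1)) m m (fun i => w.redv (a i))
      (fun i => w.redv (c (m - 1 + i))) (by omega) hra hrc2 hrna hrnc2 s1 rfl s2).2
  have hxu' : Edge S.P (ty ρ (m - 1)) (w.redv x) (w.redv u) :=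
    F85_edge_red w h2 hw (fun d => cl_mono Set.subset_union_left (hxs d))
      (fun d => mem_cl_of_mem (Or.inr ⟨d, rfl⟩)) hM.xu
  have hcen := hT.cen
  have hwalkV : IsWalk S.P (ty ρ (m - j)) (m + 1) (F85_V c a u m j) := by
    apply F85_V_walk hj hjm
    · exact fun i hi => hT.walk i (by omega)
    · rw [hcen]; exact hM.xu
    · rw [hT.a0]; exact hM.uv
    · exact fun i hi => hT.awalk i (by omega)
  have hrwalkV : IsWalk S.P (ty ρ (m - j)) (m + 1) (fun i => w.redv (F85_V c a u m j i)) := by
    have e : (fun i => w.redv (F85_V c a u m j i)) =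
        F85_V (fun i => w.redv (c i)) (fun i => w.redv (a i)) (w.redv u) m j := by
      funext i
      exact F85_redv_V w c a u m j i
    rw [e]
    have g1 : IsWalk S.P ρ (m - 1) (fun i => w.redv (c i)) := fun i hi => hrc i (by omega)
    have g2 : Edge S.P (ty ρ (m - 1)) (w.redv (c (m - 1))) (w.redv u) := by
      rw [hcen]; exact hxu'
    have g3 : Edge S.P (!(ty ρ (m - 1))) (w.redv u) (w.redv (a 0)) := by
      rw [hT.a0, hvx]; exact F85_edge_symm hxu'
    have g4 : IsWalk S.P (ty ρ (m - 1)) (m - j) (fun i => w.redv (a i)) :=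
      fun i hi => hra i (by omega)
    exact F85_V_walk (c := fun i => w.redv (c i)) (a := fun i => w.redv (a i)) hj hjm g1 g2 g3 g4
  have huV : ∀ d, u d ∈ w.V := fun d => (hw _ (mem_cl_of_mem (Or.inr ⟨d, rfl⟩))).1
  have haV : ∀ i ≤ m, ∀ d, a i d ∈ w.V := fun i hi d => (hvq _ (haT i hi d)).1
  have hVj1 : F85_V c a u m j (j + 1) = v := by
    rw [F85_V_gt (by omega)]
    have : j + 1 - (j + 1) = 0 := by omega
    rw [this, hT.a0]
  have hVj0 : F85_V c a u m j (j - 1) = x := by
    rw [F85_V_lt (by omega)]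
    have : m - j + (j - 1) = m - 1 := by omega
    rw [this, hcen]
  have hconf : Config S w (ty ρ (m - j)) j (F85_V c a u m j) := by
    refine ⟨hj, hjm, hwalkV, ?_, hrwalkV, ?_, ?_, ?_⟩
    · intro i hi d
      unfold F85_V
      split_ifs with h h'
      · exact hcV _ (by omega) d
      · exact huV d
      · exact haV _ (by omega) d
    · rw [hVj1, hVj0, hvx]
    · rw [hVj1, hVj0]
      intro he
      apply hM.vt
      rw [he]
      exact cl_mono Set.subset_union_left (hxs _)
    · set R : Set L := pts c (Set.Icc (m - j) (2 * m - 1 - j)) with hR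
      have hRf : R.Finite := F85_pts_finite _ (Set.finite_Icc _ _)
      have hRs : R ⊆ cl K s := by
        apply F85_pts_subset
        intro i hi d
        have := Set.mem_Icc.mp hi
        exact hcs i (by omega) d
      have r1 := F85_sub_rk S.toSys hT.walk (m - j) (2 * m - 1 - j) (by omega) (by omega)
      rw [← hR] at r1
      have r2 := hT.gen
      set b : L := u (S.t (!(ty ρ (m - 1)))) with hb
      have r3 : rk K (insert b R) = rk K R + 1 := by
        apply rk_insert_of_notMem hRf
        intro h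
        exact hM.ut (cl_le_cl (fun y hy => hRs hy) h)
      have r4 := (h2 K L w _ hw).2.1 (insert b R) (hRf.insert b) (by
        rintro y (rfl | hy)
        · exact mem_cl_of_mem (Or.inr ⟨_, rfl⟩)
        · exact cl_mono Set.subset_union_left (hRs hy))
      have r5 : w.red '' insert b R ⊆ w.red '' pts (F85_V c a u m j) (Set.Iic (m + 1)) := by
        rintro _ ⟨y, (rfl | hy), rfl⟩
        · refine ⟨_, F85_mem_pts (Set.mem_Iic.mpr (by omega : j ≤ m + 1))
            (S.t (!(ty ρ (m - 1)))), ?_⟩
          rw [F85_V_eq rfl]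
        · have hy' : w.red y ∈ w.red '' R := ⟨y, hy, rfl⟩
          revert hy'
          revert hy
          simp only [hR, pts, Set.mem_iUnion]
          rintro ⟨i, hi, d, rfl⟩ -
          have hi' := Set.mem_Icc.mp hi
          rcases Nat.lt_or_ge i m with h | h
          · refine ⟨F85_V c a u m j (i - (m - j)) d,
              F85_mem_pts (Set.mem_Iic.mpr (by omega)) d, ?_⟩
            rw [F85_V_lt (by omega)]
            have : m - j + (i - (m - j)) = i := by omega
            rw [this]
          · refine ⟨F85_V c a u m j (j + 1 + (i - (m - 1))) d,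
              F85_mem_pts (Set.mem_Iic.mpr (by omega)) d, ?_⟩
            rw [F85_V_gt (by omega)]
            have e1 : j + 1 + (i - (m - 1)) - (j + 1) = i - (m - 1) := by omega
            have e2 : m - 1 + (i - (m - 1)) = i := by omega
            have := congrFun (hac (i - (m - 1)) (by omega)) d
            rw [e2] at this
            rw [e1]
            exact this
      have r6 := rk_mono (K := K) ((F85_pts_finite (F85_V c a u m j)
        (Set.finite_Iic (m + 1))).image w.red) r5
      omega
  have key := O.ord L w (ty ρ (m - j)) j (F85_V c a u m j) hconf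
  rw [hVj1, hVj0, F85_V_lt (by omega : 0 < j), F85_V_gt (by omega : j < m + 1), ← ty_add] at key
  have e1 : m - j + 0 = m - j := by omega
  have e2 : m + 1 - (j + 1) = m - j := by omega
  have e3 : ty ρ (m - j + (j + 1)) = ty ρ (m - 1) := F85_ty_congr ρ (by omega)
  rw [e1, e2, e3] at key
  exact key

end Pool.Agent.Helper92.GG
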