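import Pool.Agent.Helper92.GG.RK
import Pool.Agent.Helper92.GG.Stmts

/-! # Tools for the frame modules CASEB, CASEU (helper85) -/

set_option autoImplicit false
set_option linter.unusedSectionVars false

namespace Pool.Agent.Helper92.GG

open MvPolynomial
open Pool.Agent.Helper49.Girth (cl mem_cl mem_cl' coe_cl subset_cl mem_cl_of_mem cl_le_cl cl_mono
  root_mem_cl aeval_mem ty ty_add ty_succ ty_add_two ty_zero)

universe u

/-! ## types -/

theorem F85_ty_mod (σ : Bool) (a : ℕ) : ty σ a = ty σ (a % 2) := by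
  induction a using Nat.strong_induction_on with
  | _ a ih =>
    rcases Nat.lt_or_ge a 2 with h | h
    · rw [Nat.mod_eq_of_lt h]
    · obtain ⟨b, rfl⟩ := Nat.exists_eq_add_of_le h
      rw [Nat.add_comm 2 b, ty_add_two, ih b (by omega)]
      congr 1
      omega

theorem F85_ty_congr (σ : Bool) {a b : ℕ} (h : a % 2 = b % 2) : ty σ a = ty σ b := by
  rw [F85_ty_mod σ a, F85_ty_mod σ b, h]

section walks

variable {K : Type u} [Field K] {n : ℕ} {P : Ideal (MvPolynomial (Fin n ⊕ Fin n) K)}
  {L : Type u} [Field L] [Algebra K L]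

theorem F85_edge_symm {σ : Bool} {x y : Fin n → L} (h : Edge P σ x y) : Edge P (!σ) y x := by
  unfold Edge at *
  cases σ <;> exact h

/-- replace the first vertex of a walk -/
theorem F85_repl_walk {σ : Bool} {r : ℕ} {a : ℕ → Fin n → L} {x : Fin n → L}
    (ha : IsWalk P σ r a) (he : Edge P σ x (a 1)) :
    IsWalk P σ r (fun i => if i = 0 then x else a i) := by
  intro i hi
  rcases Nat.eq_zero_or_pos i with rfl | h0
  · simpa [ty_zero] using he
  · have h1 : i ≠ 0 := by omega
    simpa [h1] using ha i hi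

theorem F85_shift_walk {σ : Bool} {r : ℕ} {a : ℕ → Fin n → L} (k l : ℕ)
    (ha : IsWalk P σ r a) (h : k + l ≤ r) : IsWalk P (ty σ k) l (fun i => a (k + i)) := by
  intro i hi
  have := ha (k + i) (by omega)
  rw [ty_add] at this
  exact this

theorem F85_shift_nb {r : ℕ} {a : ℕ → Fin n → L} (k l : ℕ)
    (ha : NB r a) (h : k + l ≤ r) : NB l (fun i => a (k + i)) := by
  intro i hi
  exact ha (k + i) (by omega)

/-- The key lemma. -/
theorem F85_key {m : ℕ} (hU : Uniq P m) (hm : 2 ≤ m) {σ : Bool} {a c : ℕ → Fin n → L}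
    (ha : IsWalk P σ m a) (hna : NB m a) (hc : IsWalk P σ m c) (hnc : NB m c)
    (he : Edge P σ (c 0) (a 1)) (hq : a m = c m) : a 1 = c 1 := by
  by_cases h2 : c 0 = a 2
  · exfalso
    have hs := F85_shift_walk 2 (m - 2) ha (by omega)
    have hn := F85_shift_nb 2 (m - 2) hna (by omega)
    have h3 : ty σ 2 = σ := ty_add_two σ 0
    rw [h3] at hs
    have := hU L σ (m - 2) m (fun i => a (2 + i)) c (by omega) hs hc hn hnc (by simpa using h2.symm)
      (F85_ty_congr σ (by omega)) (by
        have : 2 + (m - 2) = m := by omega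
        simpa [this] using hq)
    omega
  · have hw := F85_repl_walk ha he
    have hn : NB m (fun i => if i = 0 then c 0 else a i) := by
      intro i hi
      rcases Nat.eq_zero_or_pos i with rfl | h0
      · simpa using h2
      · have h1 : i ≠ 0 := by omega
        simpa [h1] using hna i hi
    have hm0 : m ≠ 0 := by omega
    have := (hU L σ m m _ c (by omega) hw hc hn hnc (by simp) rfl (by simpa [hm0] using hq)).2 1
      (by omega)
    simpa using this

/-- the walk `c (m-j), ..., c (m-1), u, a 0, a 1, ..., a (m-j)` -/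
def F85_V (c a : ℕ → Fin n → L) (u : Fin n → L) (m j : ℕ) : ℕ → Fin n → L := fun i =>
  if i < j then c (m - j + i) else if i = j then u else a (i - (j + 1))

theorem F85_V_lt {c a : ℕ → Fin n → L} {u : Fin n → L} {m j i : ℕ} (h : i < j) :
    F85_V c a u m j i = c (m - j + i) := by
  simp [F85_V, h]

theorem F85_V_eq {c a : ℕ → Fin n → L} {u : Fin n → L} {m j i : ℕ} (h : i = j) :
    F85_V c a u m j i = u := by
  subst h
  simp [F85_V]

theorem F85_V_gt {c a : ℕ → Fin n → L} {u : Fin n → L} {m j i : ℕ} (h : j < i) :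
    F85_V c a u m j i = a (i - (j + 1)) := by
  have h1 : ¬ i < j := by omega
  have h2 : i ≠ j := by omega
  simp [F85_V, h1, h2]

theorem F85_V_walk {c a : ℕ → Fin n → L} {u : Fin n → L} {m j : ℕ} {ρ : Bool} (hj : 1 ≤ j)
    (hjm : j ≤ m) (hc : IsWalk P ρ (m - 1) c) (hxu : Edge P (ty ρ (m - 1)) (c (m - 1)) u)
    (huv : Edge P (!(ty ρ (m - 1))) u (a 0)) (ha : IsWalk P (ty ρ (m - 1)) (m - j) a) :
    IsWalk P (ty ρ (m - j)) (m + 1) (F85_V c a u m j) := by
  intro i hi
  rw [← ty_add]
  rcases Nat.lt_or_ge (i + 1) j with h | h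
  · rw [F85_V_lt (by omega : i < j), F85_V_lt h]
    exact hc (m - j + i) (by omega)
  · rcases Nat.lt_or_ge i j with h' | h'
    · have e : i + 1 = j := by omega
      rw [F85_V_lt h', F85_V_eq e]
      have e2 : m - j + i = m - 1 := by omega
      rw [e2]
      exact hxu
    · rcases Nat.lt_or_ge j i with h'' | h''
      · rw [F85_V_gt h'', F85_V_gt (by omega : j < i + 1)]
        have := ha (i - (j + 1)) (by omega)
        rw [← ty_add] at this
        have e : i + 1 - (j + 1) = i - (j + 1) + 1 := by omega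
        rw [e]
        have e2 : ty ρ (m - j + i) = ty ρ (m - 1 + (i - (j + 1))) :=
          F85_ty_congr ρ (by omega)
        rw [e2]
        exact this
      · have e : i = j := by omega
        subst e
        rw [F85_V_eq rfl, F85_V_gt (by omega : i < i + 1)]
        have e : i + 1 - (i + 1) = 0 := by omega
        rw [e]
        rw [← ty_succ] at huv
        have e2 : ty ρ (m - i + i) = ty ρ (m - 1 + 1) := F85_ty_congr ρ (by omega)
        rw [e2]
        exact huv

theorem F85_V_nb {c a : ℕ → Fin n → L} {u : Fin n → L} {m j : ℕ} (hj : 1 ≤ j)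
    (hjm : j ≤ m) (hc : NB (m - 1) c) (h1 : 2 ≤ j → c (m - 2) ≠ u) (h2 : c (m - 1) ≠ a 0)
    (h3 : j + 1 ≤ m → u ≠ a 1) (ha : NB (m - j) a) : NB (m + 1) (F85_V c a u m j) := by
  intro i hi
  rcases Nat.lt_or_ge (i + 2) j with h | h
  · rw [F85_V_lt (by omega : i < j), F85_V_lt h]
    exact hc (m - j + i) (by omega)
  · rcases Nat.lt_or_ge (i + 1) j with h' | h'
    · rw [F85_V_lt (by omega : i < j), F85_V_eq (by omega : i + 2 = j)]
      have e : m - j + i = m - 2 := by omega
      rw [e]
      exact h1 (by omega)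
    · rcases Nat.lt_or_ge i j with h'' | h''
      · rw [F85_V_lt h'', F85_V_gt (by omega : j < i + 2)]
        have e : m - j + i = m - 1 := by omega
        have e2 : i + 2 - (j + 1) = 0 := by omega
        rw [e, e2]
        exact h2
      · rcases Nat.lt_or_ge j i with h3' | h3'
        · rw [F85_V_gt h3', F85_V_gt (by omega : j < i + 2)]
          have e : i + 2 - (j + 1) = i - (j + 1) + 2 := by omega
          rw [e]
          exact ha _ (by omega)
        · have e : i = j := by omega
          subst e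
          rw [F85_V_eq rfl, F85_V_gt (by omega : i < i + 2)]
          have e : i + 2 - (i + 1) = 1 := by omega
          rw [e]
          exact h3 (by omega)

/-! ## points -/

theorem F85_pts_finite (v : ℕ → Fin n → L) {I : Set ℕ} (hI : I.Finite) : (pts v I).Finite :=
  hI.biUnion fun _ _ => Set.finite_range _

theorem F85_mem_pts {v : ℕ → Fin n → L} {I : Set ℕ} {i : ℕ} (hi : i ∈ I) (c : Fin n) :
    v i c ∈ pts v I := by
  unfold pts
  exact Set.mem_biUnion hi ⟨c, rfl⟩

theorem F85_range_subset_pts {v : ℕ → Fin n → L} {I : Set ℕ} {i : ℕ} (hi : i ∈ I) :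
    Set.range (v i) ⊆ pts v I := by
  rintro _ ⟨c, rfl⟩
  exact F85_mem_pts hi c

theorem F85_pts_subset {v : ℕ → Fin n → L} {I : Set ℕ} {T : Set L}
    (h : ∀ i ∈ I, ∀ c, v i c ∈ T) : pts v I ⊆ T := by
  intro a ha
  simp only [pts, Set.mem_iUnion] at ha
  obtain ⟨i, hi, c, rfl⟩ := ha
  exact h i hi c

theorem F85_pts_mono {v : ℕ → Fin n → L} {I J : Set ℕ} (h : I ⊆ J) : pts v I ⊆ pts v J :=
  F85_pts_subset fun _ hi c => F85_mem_pts (h hi) c

end walks

section ranks

variable {K : Type u} [Field K] [IsAlgClosed K] {n m k : ℕ} (S : Sys K n m k)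
  {L : Type u} [Field L] [Algebra K L]

/-- a neighbour adds at most `k` -/
theorem F85_step_le {σ : Bool} {x y : Fin n → L} (h : Edge S.P σ x y) {A : Set L}
    (hA : A.Finite) (hx : Set.range x ⊆ A) : rk K (A ∪ Set.range y) ≤ rk K A + k := by
  have h1 := rk_submod (K := K) (Set.finite_range x) hA (Set.finite_range y)
  have e1 : Set.range x ∪ A = A := Set.union_eq_self_of_subset_left hx
  have h2 := S.rkV L σ x y h
  have h3 := S.rkE L σ x y h
  rw [e1, h2, h3] at h1
  have e2 : (m + 1) * k = m * k + k := by ring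
  omega

/-- adding vertices at the end -/
theorem F85_pts_up {σ : Bool} {r : ℕ} {v : ℕ → Fin n → L} (hv : IsWalk S.P σ r v) {A : Set L}
    (hA : A.Finite) (j : ℕ) (hj : Set.range (v j) ⊆ A) (l : ℕ) (hl : j + l ≤ r) :
    rk K (A ∪ pts v (Set.Icc j (j + l))) ≤ rk K A + l * k := by
  induction l with
  | zero =>
    have : pts v (Set.Icc j (j + 0)) ⊆ A :=
      F85_pts_subset fun i hi c => by
        have : i = j := by simpa using hi
        subst this
        exact hj ⟨c, rfl⟩
    rw [Set.union_eq_self_of_subset_right this]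
    omega
  | succ l ih =>
    have h1 := ih (by omega)
    have h2 := F85_step_le S (hv (j + l) (by omega))
      (hA.union (F85_pts_finite v (Set.finite_Icc j (j + l))))
      ((F85_range_subset_pts (I := Set.Icc j (j + l)) ⟨by omega, le_refl _⟩).trans
        Set.subset_union_right)
    have h3 : A ∪ pts v (Set.Icc j (j + (l + 1))) ⊆
        A ∪ pts v (Set.Icc j (j + l)) ∪ Set.range (v (j + l + 1)) := by
      apply Set.union_subset
      · exact Set.subset_union_left.trans Set.subset_union_left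
      · apply F85_pts_subset
        intro i hi c
        rcases Nat.lt_or_ge (j + l) i with h | h
        · have : i = j + l + 1 := by have := hi.2; omega
          subst this
          exact Or.inr ⟨c, rfl⟩
        · exact Or.inl (Or.inr (F85_mem_pts (Set.mem_Icc.mpr ⟨hi.1, h⟩) c))
    have h4 := rk_mono (K := K) ((hA.union (F85_pts_finite v (Set.finite_Icc j (j + l)))).union
      (Set.finite_range _)) h3
    have e : (l + 1) * k = l * k + k := by ring
    omega

/-- adding vertices at the beginning -/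
theorem F85_pts_down {σ : Bool} {r : ℕ} {v : ℕ → Fin n → L} (hv : IsWalk S.P σ r v) {A : Set L}
    (hA : A.Finite) (j : ℕ) (hjr : j ≤ r) (hj : Set.range (v j) ⊆ A) (l : ℕ) (hl : l ≤ j) :
    rk K (A ∪ pts v (Set.Icc (j - l) j)) ≤ rk K A + l * k := by
  induction l with
  | zero =>
    have : pts v (Set.Icc (j - 0) j) ⊆ A :=
      F85_pts_subset fun i hi c => by
        have : i = j := by simpa using hi
        subst this
        exact hj ⟨c, rfl⟩
    rw [Set.union_eq_self_of_subset_right this]
    omega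
  | succ l ih =>
    have h1 := ih (by omega)
    have e0 : j - (l + 1) + 1 = j - l := by omega
    have hedge := hv (j - (l + 1)) (by omega)
    rw [e0] at hedge
    have h2 := F85_step_le S (F85_edge_symm hedge)
      (hA.union (F85_pts_finite v (Set.finite_Icc (j - l) j)))
      ((F85_range_subset_pts (I := Set.Icc (j - l) j) ⟨le_refl _, by omega⟩).trans
        Set.subset_union_right)
    have h3 : A ∪ pts v (Set.Icc (j - (l + 1)) j) ⊆
        A ∪ pts v (Set.Icc (j - l) j) ∪ Set.range (v (j - (l + 1))) := by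
      apply Set.union_subset
      · exact Set.subset_union_left.trans Set.subset_union_left
      · apply F85_pts_subset
        intro i hi c
        rcases Nat.lt_or_ge i (j - l) with h | h
        · have : i = j - (l + 1) := by have := hi.1; omega
          subst this
          exact Or.inr ⟨c, rfl⟩
        · exact Or.inl (Or.inr (F85_mem_pts (Set.mem_Icc.mpr ⟨h, hi.2⟩) c))
    have h4 := rk_mono (K := K) ((hA.union (F85_pts_finite v (Set.finite_Icc (j - l) j))).union
      (Set.finite_range _)) h3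
    have e : (l + 1) * k = l * k + k := by ring
    omega

/-- subwalks of walks of large rank -/
theorem F85_sub_rk {σ : Bool} {r : ℕ} {v : ℕ → Fin n → L} (hv : IsWalk S.P σ r v) (i j : ℕ)
    (hij : i ≤ j) (hj : j ≤ r) :
    rk K (pts v (Set.Iic r)) ≤ rk K (pts v (Set.Icc i j)) + (i + (r - j)) * k := by
  have hf := F85_pts_finite v (Set.finite_Icc i j)
  have h1 := F85_pts_up S hv hf j (F85_range_subset_pts (Set.mem_Icc.mpr ⟨hij, le_refl _⟩)) (r - j) (by omega)
  have hf2 := hf.union (F85_pts_finite v (Set.finite_Icc j (j + (r - j))))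
  have h2 := F85_pts_down S hv hf2 i (by omega)
    ((F85_range_subset_pts (Set.mem_Icc.mpr ⟨le_refl _, hij⟩)).trans Set.subset_union_left) i (le_refl _)
  have h3 : pts v (Set.Iic r) ⊆ pts v (Set.Icc i j) ∪ pts v (Set.Icc j (j + (r - j))) ∪
      pts v (Set.Icc (i - i) i) := by
    apply F85_pts_subset
    intro a ha c
    have ha' : a ≤ r := ha
    rcases Nat.lt_or_ge a i with h | h
    · exact Or.inr (F85_mem_pts (Set.mem_Icc.mpr ⟨by omega, by omega⟩) c)
    · rcases Nat.lt_or_ge j a with h' | h'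
      · exact Or.inl (Or.inr (F85_mem_pts (Set.mem_Icc.mpr ⟨by omega, by omega⟩) c))
      · exact Or.inl (Or.inl (F85_mem_pts (Set.mem_Icc.mpr ⟨by omega, by omega⟩) c))
  have h4 := rk_mono (K := K) (hf2.union (F85_pts_finite v (Set.finite_Icc (i - i) i))) h3
  have e : (i + (r - j)) * k = i * k + (r - j) * k := by ring
  omega

end ranks

/-! ## residues -/

section red

variable {K : Type u} [Field K] {L : Type u} [Field L] [Algebra K L] (w : KVal K L)

/-- the residue map -/
noncomputable def F85_res : w.V →+* w.κ := IsLocalRing.residue w.V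

theorem F85_red_of_mem {a : L} (h : a ∈ w.V) :
    w.red a = F85_res w ⟨a, h⟩ := by
  unfold KVal.red
  exact dif_pos h

theorem F85_res_incl (r : K) : F85_res w (w.incl r) = algebraMap K w.κ r := rfl

theorem F85_aeval_red {ι : Type} {z : ι → L} (hz : ∀ i, z i ∈ w.V) (f : MvPolynomial ι K) :
    aeval z f ∈ w.V ∧ w.red (aeval z f) = aeval (fun i => w.red (z i)) f := by
  set z' : ι → w.V := fun i => ⟨z i, hz i⟩ with hz'
  have h1 : ((eval₂Hom w.incl z' f : w.V) : L) = aeval z f := by
    have : (w.V.subtype.comp (eval₂Hom w.incl z')) =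
        ((aeval z : MvPolynomial ι K →ₐ[K] L) : MvPolynomial ι K →+* L) := by
      apply MvPolynomial.ringHom_ext
      · intro r
        simp [KVal.incl]
      · intro i
        simp [hz']
    exact congrArg (fun φ : MvPolynomial ι K →+* L => φ f) this
  have h2 : aeval z f ∈ w.V := by rw [← h1]; exact (eval₂Hom w.incl z' f).2
  refine ⟨h2, ?_⟩
  have h3 : (⟨aeval z f, h2⟩ : w.V) = eval₂Hom w.incl z' f := Subtype.ext h1.symm
  rw [F85_red_of_mem w h2, h3]
  have : ((F85_res w).comp (eval₂Hom w.incl z')) =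
      ((aeval (fun i => w.red (z i)) : MvPolynomial ι K →ₐ[K] w.κ) :
        MvPolynomial ι K →+* w.κ) := by
    apply MvPolynomial.ringHom_ext
    · intro r
      rw [RingHom.comp_apply, coe_eval₂Hom, eval₂_C, RingHom.coe_coe, aeval_C, F85_res_incl]
    · intro i
      rw [RingHom.comp_apply, coe_eval₂Hom, eval₂_X, RingHom.coe_coe, aeval_X,
        F85_red_of_mem w (hz i)]
  exact congrArg (fun φ : MvPolynomial ι K →+* w.κ => φ f) this

theorem F85_val_eq_one {a : L} (ha : a ∈ w.V) (h : w.red a ≠ 0) : w.V.valuation a = 1 := by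
  rw [F85_red_of_mem w ha] at h
  have h1 : IsUnit (⟨a, ha⟩ : w.V) := by
    by_contra hn
    exact h ((IsLocalRing.residue_eq_zero_iff _).mpr ((IsLocalRing.mem_maximalIdeal _).mpr hn))
  exact (w.V.valuation_eq_one_iff ⟨a, ha⟩).mp h1

theorem F85_conj_red (h2 : ST_PL2.{u}) {s : Set L} (ht : w.Triv (cl K s)) {ι : Type}
    {z : ι → L} (hz : ∀ i, z i ∈ cl K s) : Conj K z (fun i => w.red (z i)) := by
  obtain ⟨⟨θ, hθ⟩, -⟩ := h2 K L w s ht
  have h3 := conj_of_algHom (cl K s).val (fun i => (⟨z i, hz i⟩ : cl K s))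
  have h4 := conj_of_algHom θ (fun i => (⟨z i, hz i⟩ : cl K s))
  have e : (fun i => θ (⟨z i, hz i⟩ : cl K s)) = fun i => w.red (z i) := by
    funext i
    exact hθ _
  rw [e] at h4
  exact h3.symm.trans h4

theorem F85_edge_red (h2 : ST_PL2.{u}) {s : Set L} (ht : w.Triv (cl K s)) {n : ℕ}
    {P : Ideal (MvPolynomial (Fin n ⊕ Fin n) K)} {σ : Bool} {x y : Fin n → L}
    (hx : ∀ c, x c ∈ cl K s) (hy : ∀ c, y c ∈ cl K s) (h : Edge P σ x y) :
    Edge P σ (w.redv x) (w.redv y) := by
  have key : Conj K (Sum.elim (cond σ x y) (cond σ y x))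
      (fun i => w.red (Sum.elim (cond σ x y) (cond σ y x) i)) := by
    apply F85_conj_red w h2 ht
    rintro (i | i) <;> cases σ
    · exact hy i
    · exact hx i
    · exact hx i
    · exact hy i
  have e : (fun i => w.red (Sum.elim (cond σ x y) (cond σ y x) i)) =
      Sum.elim (cond σ (w.redv x) (w.redv y)) (cond σ (w.redv y) (w.redv x)) := by
    funext i
    rcases i with i | i <;> cases σ <;> rfl
  rw [e] at key
  unfold Edge at *
  rw [← h]
  exact (conj_iff_ker.mp key).symm

theorem F85_walk_red (h2 : ST_PL2.{u}) {s : Set L} (ht : w.Triv (cl K s)) {n : ℕ}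
    {P : Ideal (MvPolynomial (Fin n ⊕ Fin n) K)} {σ : Bool} {r : ℕ} {v : ℕ → Fin n → L}
    (hv : ∀ i ≤ r, ∀ c, v i c ∈ cl K s) (h : IsWalk P σ r v) :
    IsWalk P σ r (fun i => w.redv (v i)) := by
  intro i hi
  exact F85_edge_red w h2 ht (hv i (by omega)) (hv (i + 1) (by omega)) (h i hi)

theorem F85_redv_inj (h2 : ST_PL2.{u}) {s : Set L} (ht : w.Triv (cl K s)) {n : ℕ}
    {x y : Fin n → L} (hx : ∀ c, x c ∈ cl K s) (hy : ∀ c, y c ∈ cl K s)
    (h : w.redv x = w.redv y) : x = y := by
  obtain ⟨⟨θ, hθ⟩, -⟩ := h2 K L w s ht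
  funext c
  have h1 : θ ⟨x c, hx c⟩ = θ ⟨y c, hy c⟩ := by
    rw [hθ, hθ]
    exact congrFun h c
  exact congrArg Subtype.val (θ.injective h1)

theorem F85_nb_red (h2 : ST_PL2.{u}) {s : Set L} (ht : w.Triv (cl K s)) {n : ℕ}
    {r : ℕ} {v : ℕ → Fin n → L}
    (hv : ∀ i ≤ r, ∀ c, v i c ∈ cl K s) (h : NB r v) :
    NB r (fun i => w.redv (v i)) := by
  intro i hi he
  exact h i hi (F85_redv_inj w h2 ht (hv i (by omega)) (hv (i + 2) (by omega)) he)

theorem F85_redv_V {n : ℕ} (c a : ℕ → Fin n → L) (x : Fin n → L) (m j i : ℕ) :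
    w.redv (F85_V c a x m j i) =
      F85_V (fun i => w.redv (c i)) (fun i => w.redv (a i)) (w.redv x) m j i := by
  unfold F85_V
  split_ifs <;> rfl

end red

end Pool.Agent.Helper92.GG
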